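import Mathlib

/-! # The transfinite diameter of sets between a circle and its closed disc -/

set_option autoImplicit false

open Finset Filter Topology Matrix
open scoped ComplexOrder

namespace Pool.Agent.Q74.LogPot

/-- The product of the mutual distances of `n` points. -/
noncomputable def distProd {n : ℕ} (z : Fin n → ℂ) : ℝ := ∏ i, ∏ j ∈ Ioi i, ‖z i - z j‖

/-- The maximal product of mutual distances of `n` points of `E`. -/
noncomputable def fekete (E : Set ℂ) (n : ℕ) : ℝ := sSup (distProd '' {z : Fin n → ℂ | ∀ i, z i ∈ E})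

/-- `E` has transfinite diameter `T`. -/
def IsTransfiniteDiameter (E : Set ℂ) (T : ℝ) : Prop :=
  Tendsto (fun n : ℕ => fekete E n ^ (2 / ((n : ℝ) * ((n : ℝ) - 1)))) atTop (𝓝 T)

theorem distProd_nonneg {n : ℕ} (z : Fin n → ℂ) : 0 ≤ distProd z :=
  prod_nonneg fun _ _ => prod_nonneg fun _ _ => norm_nonneg _

theorem distProd_eq {n : ℕ} (z : Fin n → ℂ) : distProd z = ‖det (vandermonde z)‖ := by
  rw [det_vandermonde, norm_prod]
  unfold distProd
  refine prod_congr rfl fun i _ => ?_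
  rw [norm_prod]
  refine prod_congr rfl fun j _ => ?_
  rw [norm_sub_rev]

theorem distProd_smul {n : ℕ} (z : Fin n → ℂ) {R : ℝ} (hR : 0 ≤ R) :
    distProd (fun i => (R : ℂ) * z i) = R ^ (n * (n - 1) / 2) * distProd z := by
  unfold distProd
  have h1 : ∀ i : Fin n, ∏ j ∈ Ioi i, ‖(R : ℂ) * z i - R * z j‖ =
      R ^ (Ioi i).card * ∏ j ∈ Ioi i, ‖z i - z j‖ := by
    intro i
    rw [← prod_const, ← prod_mul_distrib]
    refine prod_congr rfl fun j _ => ?_
    rw [← mul_sub, norm_mul, Complex.norm_real, Real.norm_of_nonneg hR]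
  simp only [h1]
  rw [prod_mul_distrib, prod_pow_eq_pow_sum]
  congr 2
  have h2 : ∀ i : Fin n, (Ioi i).card = n - 1 - i := fun i => Fin.card_Ioi i
  simp only [h2]
  rw [Fin.sum_univ_eq_sum_range (fun i => n - 1 - i), Finset.sum_range_reflect (fun i => i) n,
    Finset.sum_range_id]

/-- Hadamard type bound. -/
theorem det_sq_le {n : ℕ} (z : Fin n → ℂ) (hz : ∀ i, ‖z i‖ ≤ 1) :
    ‖det (vandermonde z)‖ ^ 2 ≤ (n : ℝ) ^ n := by
  rcases Nat.eq_zero_or_pos n with rfl | hn
  · simp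
  set V := vandermonde z with hV
  have hP : (V * Vᴴ).PosSemidef := posSemidef_self_mul_conjTranspose V
  have hdet : (‖det V‖ : ℝ) ^ 2 = ∏ i, hP.1.eigenvalues i := by
    have h1 := hP.1.det_eq_prod_eigenvalues
    rw [det_mul, det_conjTranspose] at h1
    have h2 : V.det * star V.det = ((‖det V‖ ^ 2 : ℝ) : ℂ) := by
      rw [Complex.star_def, Complex.mul_conj, Complex.normSq_eq_norm_sq]
    rw [h2] at h1
    apply Complex.ofReal_injective
    rw [h1, Complex.ofReal_prod]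
    rfl
  have htr : ∑ i, hP.1.eigenvalues i ≤ (n : ℝ) * n := by
    have h1 := hP.1.trace_eq_sum_eigenvalues
    have h2 : (V * Vᴴ).trace = ((∑ i, ∑ j, ‖V i j‖ ^ 2 : ℝ) : ℂ) := by
      rw [trace]
      push_cast
      refine sum_congr rfl fun i _ => ?_
      rw [diag_apply, mul_apply]
      refine sum_congr rfl fun j _ => ?_
      rw [conjTranspose_apply, Complex.star_def, Complex.mul_conj, Complex.normSq_eq_norm_sq]
      push_cast; rfl
    rw [h2] at h1
    have h3 : ∑ i, ∑ j, ‖V i j‖ ^ 2 = ∑ i, hP.1.eigenvalues i := by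
      apply Complex.ofReal_injective
      rw [h1, Complex.ofReal_sum]
      rfl
    rw [← h3]
    calc ∑ i, ∑ j, ‖V i j‖ ^ 2 ≤ ∑ i : Fin n, ∑ j : Fin n, (1 : ℝ) := by
          refine sum_le_sum fun i _ => sum_le_sum fun j _ => ?_
          rw [hV, vandermonde_apply, norm_pow, ← pow_mul]
          exact pow_le_one₀ (norm_nonneg _) (hz i)
      _ = (n : ℝ) * n := by simp
  have hnn : ∀ i, 0 ≤ hP.1.eigenvalues i := fun i => hP.eigenvalues_nonneg i
  have hn0 : (0 : ℝ) < n := by exact_mod_cast hn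
  have hAG := Real.geom_mean_le_arith_mean (s := (univ : Finset (Fin n))) (fun _ => (1 : ℝ))
    (fun i => hP.1.eigenvalues i) (fun _ _ => zero_le_one) (by simpa using hn0) (fun i _ => hnn i)
  simp only [Real.rpow_one, sum_const, card_univ, Fintype.card_fin, nsmul_eq_mul, mul_one, one_mul] at hAG
  rw [hdet]
  have h5 : (∏ i, hP.1.eigenvalues i) ^ ((n : ℝ)⁻¹) ≤ n := by
    refine hAG.trans ?_
    rw [div_le_iff₀ hn0]
    exact htr
  have h6 : 0 ≤ ∏ i, hP.1.eigenvalues i := prod_nonneg fun i _ => hnn i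
  calc ∏ i, hP.1.eigenvalues i = ((∏ i, hP.1.eigenvalues i) ^ ((n : ℝ)⁻¹)) ^ n := by
        rw [← Real.rpow_natCast, ← Real.rpow_mul h6, inv_mul_cancel₀ hn0.ne', Real.rpow_one]
    _ ≤ (n : ℝ) ^ n := by gcongr

/-- Equality for the roots of unity. -/
theorem det_sq_eq {n : ℕ} (hn : n ≠ 0) {ζ : ℂ} (hζ : IsPrimitiveRoot ζ n) :
    ‖det (vandermonde (fun i : Fin n => ζ ^ (i : ℕ)))‖ ^ 2 = (n : ℝ) ^ n := by
  set V := vandermonde (fun i : Fin n => ζ ^ (i : ℕ)) with hV
  have hζ1 : ‖ζ‖ = 1 := hζ.norm'_eq_one hn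
  have hζ0 : ζ ≠ 0 := hζ.ne_zero hn
  have hmul : V * Vᴴ = (n : ℂ) • (1 : Matrix (Fin n) (Fin n) ℂ) := by
    ext i j
    rw [mul_apply, Matrix.smul_apply, one_apply]
    have h1 : ∀ k : Fin n, V i k * Vᴴ k j = (ζ ^ (i : ℕ) * (starRingEnd ℂ) ζ ^ (j : ℕ)) ^ (k : ℕ) := by
      intro k
      rw [conjTranspose_apply, hV, vandermonde_apply, vandermonde_apply, Complex.star_def, map_pow, map_pow,
        mul_pow]
    simp only [h1]
    rw [Fin.sum_univ_eq_sum_range (fun k => (ζ ^ (i : ℕ) * (starRingEnd ℂ) ζ ^ (j : ℕ)) ^ k)]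
    have hcc : ζ * (starRingEnd ℂ) ζ = 1 := by
      rw [Complex.mul_conj, Complex.normSq_eq_norm_sq, hζ1]; norm_num
    by_cases hij : i = j
    · subst hij
      rw [← mul_pow, hcc, if_pos rfl]
      simp
    · rw [if_neg hij, smul_zero]
      set a := ζ ^ (i : ℕ) * (starRingEnd ℂ) ζ ^ (j : ℕ) with ha
      have han : a ^ n = 1 := by
        rw [ha, mul_pow, ← pow_mul, ← pow_mul, mul_comm (i : ℕ), mul_comm (j : ℕ), pow_mul, pow_mul,
          hζ.pow_eq_one, ← map_pow, hζ.pow_eq_one, map_one]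
        simp
      have ha1 : a ≠ 1 := by
        intro h
        apply hij
        have h2 : ζ ^ (i : ℕ) = ζ ^ (j : ℕ) := by
          calc ζ ^ (i : ℕ) = ζ ^ (i : ℕ) * ((starRingEnd ℂ) ζ ^ (j : ℕ) * ζ ^ (j : ℕ)) := by
                rw [← mul_pow, mul_comm _ ζ, hcc, one_pow, mul_one]
            _ = a * ζ ^ (j : ℕ) := by rw [ha]; ring
            _ = ζ ^ (j : ℕ) := by rw [h, one_mul]
        exact Fin.ext (hζ.pow_inj i.2 j.2 h2)
      have h3 := geom_sum_mul a n
      rw [han, sub_self] at h3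
      exact (mul_eq_zero.1 h3).resolve_right (sub_ne_zero.2 ha1)
  have h1 := congrArg det hmul
  rw [det_mul, det_conjTranspose, det_smul, det_one, mul_one, Fintype.card_fin, Complex.star_def,
    Complex.mul_conj, Complex.normSq_eq_norm_sq] at h1
  exact_mod_cast h1

theorem fekete_eq {E : Set ℂ} {R : ℝ} (hR : 0 < R) (h1 : E ⊆ Metric.closedBall 0 R)
    (h2 : Metric.sphere 0 R ⊆ E) {n : ℕ} (hn : n ≠ 0) :
    fekete E n = R ^ (n * (n - 1) / 2) * Real.sqrt ((n : ℝ) ^ n) := by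
  have hub : ∀ z : Fin n → ℂ, (∀ i, z i ∈ E) → distProd z ≤ R ^ (n * (n - 1) / 2) * Real.sqrt ((n : ℝ) ^ n) := by
    intro z hz
    have e : z = fun i => (R : ℂ) * (z i / R) := by
      funext i
      have : (R : ℂ) ≠ 0 := by exact_mod_cast hR.ne'
      field_simp
    rw [e, distProd_smul _ hR.le, distProd_eq]
    gcongr
    refine Real.le_sqrt_of_sq_le (det_sq_le _ fun i => ?_)
    rw [norm_div, Complex.norm_real, Real.norm_of_nonneg hR.le, div_le_one hR]
    simpa using h1 (hz i)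
  unfold fekete
  refine le_antisymm (csSup_le ?_ ?_) ?_
  · have hne : (R : ℂ) ∈ E := h2 (by simp [abs_of_pos hR])
    exact ⟨_, ⟨fun _ => (R : ℂ), fun _ => hne, rfl⟩⟩
  · rintro _ ⟨z, hz, rfl⟩
    exact hub z hz
  · have hζ := Complex.isPrimitiveRoot_exp n hn
    set ζ := Complex.exp (2 * Real.pi * Complex.I / n) with hζd
    have hζ1 : ‖ζ‖ = 1 := hζ.norm'_eq_one hn
    refine le_csSup ⟨R ^ (n * (n - 1) / 2) * Real.sqrt ((n : ℝ) ^ n), ?_⟩
      ⟨fun i : Fin n => (R : ℂ) * ζ ^ (i : ℕ), fun i => h2 ?_, ?_⟩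
    · rintro _ ⟨z, hz, rfl⟩
      exact hub z hz
    · simp [abs_of_pos hR, hζ1]
    · rw [distProd_smul _ hR.le, distProd_eq]
      congr 1
      rw [← det_sq_eq hn hζ, Real.sqrt_sq (norm_nonneg _)]

theorem transfiniteDiameter_of_between {E : Set ℂ} {R : ℝ} (hR : 0 < R) (h1 : E ⊆ Metric.closedBall 0 R)
    (h2 : Metric.sphere 0 R ⊆ E) : IsTransfiniteDiameter E R := by
  unfold IsTransfiniteDiameter
  have hev : ∀ᶠ n : ℕ in atTop, R * Real.exp (Real.log n / ((n : ℝ) - 1)) =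
      fekete E n ^ (2 / ((n : ℝ) * ((n : ℝ) - 1))) := by
    filter_upwards [eventually_ge_atTop 2] with n hn
    have hn0 : n ≠ 0 := by omega
    have hnr : (2 : ℝ) ≤ n := by exact_mod_cast hn
    have hn1 : (0 : ℝ) < (n : ℝ) - 1 := by linarith
    have hnp : (0 : ℝ) < n := by linarith
    rw [fekete_eq hR h1 h2 hn0, Real.mul_rpow (by positivity) (Real.sqrt_nonneg _)]
    congr 1
    · rw [← Real.rpow_natCast, ← Real.rpow_mul hR.le]
      have hcast : ((n * (n - 1) / 2 : ℕ) : ℝ) = (n : ℝ) * ((n : ℝ) - 1) / 2 := by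
        have hd : 2 ∣ n * (n - 1) := (Nat.even_mul_pred_self n).two_dvd
        rw [Nat.cast_div hd (by norm_num)]
        push_cast [Nat.cast_sub (show 1 ≤ n by omega)]
        ring
      rw [hcast]
      have : (n : ℝ) * ((n : ℝ) - 1) / 2 * (2 / ((n : ℝ) * ((n : ℝ) - 1))) = 1 := by
        field_simp
      rw [this, Real.rpow_one]
    · rw [Real.sqrt_eq_rpow, ← Real.rpow_natCast, ← Real.rpow_mul hnp.le, ← Real.rpow_mul hnp.le,
        Real.rpow_def_of_pos hnp]
      congr 1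
      field_simp
  refine Tendsto.congr' hev ?_
  have hlim : Tendsto (fun n : ℕ => Real.log n / ((n : ℝ) - 1)) atTop (𝓝 0) := by
    have h3 : Tendsto (fun x : ℝ => Real.log x / (1 * x + (-1))) atTop (𝓝 0) := by
      have := Real.tendsto_pow_log_div_mul_add_atTop 1 (-1) 1 one_ne_zero
      simpa using this
    refine (h3.comp tendsto_natCast_atTop_atTop).congr fun n => ?_
    simp only [Function.comp]
    congr 1
    ring
  have h4 := (Real.continuous_exp.tendsto 0).comp hlim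
  have h5 := h4.const_mul R
  simpa using h5

end Pool.Agent.Q74.LogPot
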