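import Mathlib

/-! # The Bessel type series used for the radial eigenfunction -/

set_option autoImplicit false

open Finset Filter Topology

namespace Pool.Agent.Q74.LogPot

/-- `∑ t^k / (k!)^2` -/
noncomputable def gS (t : ℝ) : ℝ := ∑' k : ℕ, t ^ k / ((k.factorial : ℝ) ^ 2)

/-- `∑ k t^k / (k!)^2` -/
noncomputable def GS (t : ℝ) : ℝ := ∑' k : ℕ, (k : ℝ) * t ^ k / ((k.factorial : ℝ) ^ 2)

theorem fac_pos (k : ℕ) : (0 : ℝ) < k.factorial := by exact_mod_cast k.factorial_pos

theorem one_le_fac (k : ℕ) : (1 : ℝ) ≤ k.factorial := by exact_mod_cast k.factorial_pos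

theorem le_fac (k : ℕ) : (k : ℝ) ≤ k.factorial := by exact_mod_cast k.self_le_factorial

theorem sq_le_fac (k : ℕ) : (k : ℝ) ^ 2 ≤ 2 * k.factorial := by
  have : k ^ 2 ≤ 2 * k.factorial := by
    rcases Nat.lt_or_ge k 4 with h | h
    · interval_cases k <;> simp [Nat.factorial]
    · induction k, h using Nat.le_induction with
      | base => simp [Nat.factorial]
      | succ k hk ih =>
        rw [Nat.factorial_succ]
        nlinarith
  exact_mod_cast this

theorem norm_g_le (t : ℝ) (k : ℕ) : ‖t ^ k / ((k.factorial : ℝ) ^ 2)‖ ≤ |t| ^ k / k.factorial := by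
  have h1 := fac_pos k
  have h2 := one_le_fac k
  rw [norm_div, norm_pow, norm_pow, Real.norm_eq_abs, Real.norm_of_nonneg h1.le]
  gcongr
  nlinarith

theorem norm_G_le (t : ℝ) (k : ℕ) :
    ‖(k : ℝ) * t ^ k / ((k.factorial : ℝ) ^ 2)‖ ≤ |t| ^ k / k.factorial := by
  have h1 := fac_pos k
  have h2 := le_fac k
  rw [norm_div, norm_mul, norm_pow, norm_pow, Real.norm_eq_abs, Real.norm_eq_abs, Real.norm_of_nonneg h1.le,
    Nat.abs_cast, div_le_div_iff₀ (by positivity) h1]
  have : 0 ≤ |t| ^ k := by positivity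
  calc (k : ℝ) * |t| ^ k * k.factorial ≤ k.factorial * |t| ^ k * k.factorial := by gcongr
    _ = _ := by ring

theorem summable_g (t : ℝ) : Summable fun k : ℕ => t ^ k / ((k.factorial : ℝ) ^ 2) :=
  Summable.of_norm_bounded (Real.summable_pow_div_factorial |t|) (norm_g_le t)

theorem summable_G (t : ℝ) : Summable fun k : ℕ => (k : ℝ) * t ^ k / ((k.factorial : ℝ) ^ 2) :=
  Summable.of_norm_bounded (Real.summable_pow_div_factorial |t|) (norm_G_le t)

theorem gS_zero : gS 0 = 1 := by
  unfold gS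
  rw [tsum_eq_single 0 (fun k hk => by simp [hk])]
  simp

theorem GS_zero : GS 0 = 0 := by
  unfold GS
  rw [tsum_eq_single 0 (fun k hk => by simp [hk])]
  simp

theorem gS_ge_one {t : ℝ} (ht : 0 ≤ t) : 1 ≤ gS t := by
  have := (summable_g t).le_tsum 0 (fun k _ => by positivity)
  simpa [gS] using this

theorem gS_ge {t : ℝ} (ht : 0 ≤ t) (K : ℕ) : t ^ K / ((K.factorial : ℝ) ^ 2) ≤ gS t :=
  (summable_g t).le_tsum K (fun k _ => by positivity)

theorem hasDerivAt_GS (t : ℝ) : HasDerivAt GS (gS t) t := by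
  set M : ℝ := |t| + 1 with hM
  have hM1 : 1 ≤ M := by rw [hM]; linarith [abs_nonneg t]
  have key := hasDerivAt_tsum_of_isPreconnected (t := Metric.ball (0 : ℝ) M)
    (u := fun k : ℕ => 2 * (M ^ k / k.factorial))
    (g := fun (k : ℕ) (t : ℝ) => (k : ℝ) * t ^ k / ((k.factorial : ℝ) ^ 2))
    (g' := fun (k : ℕ) (t : ℝ) => (k : ℝ) * (k * t ^ (k - 1)) / ((k.factorial : ℝ) ^ 2))
    ((Real.summable_pow_div_factorial M).mul_left 2) Metric.isOpen_ball
    (convex_ball _ _).isPreconnected (fun k y _ => by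
      have h1 := ((hasDerivAt_pow k y).const_mul (k : ℝ)).div_const ((k.factorial : ℝ) ^ 2)
      simpa using h1) (fun k y hy => by
      have hy' : |y| ≤ M := by
        have := Metric.mem_ball.1 hy
        rw [Real.dist_eq, sub_zero] at this
        exact this.le
      have h1 := fac_pos k
      have h2 := sq_le_fac k
      rw [norm_div, norm_mul, norm_mul, norm_pow, norm_pow, Real.norm_eq_abs, Real.norm_eq_abs,
        Real.norm_of_nonneg h1.le, Nat.abs_cast]
      have h3 : |y| ^ (k - 1) ≤ M ^ k := by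
        calc |y| ^ (k - 1) ≤ M ^ (k - 1) := by gcongr
          _ ≤ M ^ k := pow_le_pow_right₀ hM1 (Nat.sub_le _ _)
      rw [div_le_iff₀ (by positivity)]
      calc (k : ℝ) * (k * |y| ^ (k - 1)) = (k : ℝ) ^ 2 * |y| ^ (k - 1) := by ring
        _ ≤ (2 * k.factorial) * M ^ k := by gcongr
        _ = 2 * (M ^ k / k.factorial) * (k.factorial : ℝ) ^ 2 := by field_simp)
    (y₀ := 0) (by simp; linarith) (summable_G 0) (y := t)
    (by rw [Metric.mem_ball, Real.dist_eq, sub_zero, hM]; linarith)
  have hval : ∑' k : ℕ, (k : ℝ) * (k * t ^ (k - 1)) / ((k.factorial : ℝ) ^ 2) = gS t := by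
    rw [Summable.tsum_eq_zero_add]
    · simp only [CharP.cast_eq_zero, zero_mul, zero_div, zero_add]
      unfold gS
      refine tsum_congr fun k => ?_
      rw [Nat.add_sub_cancel, Nat.factorial_succ]
      push_cast
      have h1 := fac_pos k
      field_simp
    · rw [← summable_nat_add_iff 1]
      refine (summable_g t).congr fun k => ?_
      rw [Nat.add_sub_cancel, Nat.factorial_succ]
      push_cast
      have h1 := fac_pos k
      field_simp
  rw [hval] at key
  exact key

theorem hasDerivAt_gS {t : ℝ} (ht : 0 < t) : HasDerivAt gS (GS t / t) t := by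
  set M : ℝ := |t| + 1 with hM
  have hM1 : 1 ≤ M := by rw [hM]; linarith [abs_nonneg t]
  have key := hasDerivAt_tsum_of_isPreconnected (t := Metric.ball (0 : ℝ) M)
    (u := fun k : ℕ => M ^ k / k.factorial)
    (g := fun (k : ℕ) (t : ℝ) => t ^ k / ((k.factorial : ℝ) ^ 2))
    (g' := fun (k : ℕ) (t : ℝ) => (k * t ^ (k - 1)) / ((k.factorial : ℝ) ^ 2))
    (Real.summable_pow_div_factorial M) Metric.isOpen_ball
    (convex_ball _ _).isPreconnected (fun k y _ => by
      have h1 := (hasDerivAt_pow k y).div_const ((k.factorial : ℝ) ^ 2)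
      simpa using h1) (fun k y hy => by
      have hy' : |y| ≤ M := by
        have := Metric.mem_ball.1 hy
        rw [Real.dist_eq, sub_zero] at this
        exact this.le
      have h1 := fac_pos k
      have h2 := le_fac k
      rw [norm_div, norm_mul, norm_pow, norm_pow, Real.norm_eq_abs, Real.norm_eq_abs,
        Real.norm_of_nonneg h1.le, Nat.abs_cast]
      have h3 : |y| ^ (k - 1) ≤ M ^ k := by
        calc |y| ^ (k - 1) ≤ M ^ (k - 1) := by gcongr
          _ ≤ M ^ k := pow_le_pow_right₀ hM1 (Nat.sub_le _ _)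
      rw [div_le_iff₀ (by positivity)]
      calc (k : ℝ) * |y| ^ (k - 1) ≤ k.factorial * M ^ k := by gcongr
        _ = (M ^ k / k.factorial) * (k.factorial : ℝ) ^ 2 := by field_simp)
    (y₀ := 0) (by simp; linarith) (summable_g 0) (y := t)
    (by rw [Metric.mem_ball, Real.dist_eq, sub_zero, hM]; linarith)
  have hval : ∑' k : ℕ, ((k : ℝ) * t ^ (k - 1)) / ((k.factorial : ℝ) ^ 2) = GS t / t := by
    rw [eq_div_iff ht.ne', ← tsum_mul_right]
    unfold GS
    refine tsum_congr fun k => ?_
    rcases Nat.eq_zero_or_pos k with rfl | hk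
    · simp
    · obtain ⟨m, rfl⟩ : ∃ m, k = m + 1 := ⟨k - 1, by omega⟩
      rw [Nat.add_sub_cancel]
      ring
  rw [hval] at key
  exact key

theorem continuous_GS : Continuous GS := continuous_iff_continuousAt.2 fun t => (hasDerivAt_GS t).continuousAt

theorem continuous_gS : Continuous gS := by
  rw [continuous_iff_continuousAt]
  intro t
  set M : ℝ := |t| + 1 with hM
  have h1 : ContinuousOn gS (Metric.closedBall 0 M) := by
    refine continuousOn_tsum (u := fun k : ℕ => M ^ k / k.factorial) (fun k => by fun_prop)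
      (Real.summable_pow_div_factorial M) fun k y hy => (norm_g_le y k).trans ?_
    have hy' : |y| ≤ M := by
      have := Metric.mem_closedBall.1 hy
      rwa [Real.dist_eq, sub_zero] at this
    gcongr
  refine h1.continuousAt ?_
  refine Metric.closedBall_mem_nhds_of_mem ?_
  rw [Metric.mem_ball, Real.dist_eq, sub_zero, hM]; linarith

theorem GS_ge {t : ℝ} (ht : 0 ≤ t) (K : ℕ) :
    K * gS t - K * ∑ k ∈ range K, t ^ k / ((k.factorial : ℝ) ^ 2) ≤ GS t := by
  have h1 : ∑ k ∈ range K, t ^ k / ((k.factorial : ℝ) ^ 2) =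
      ∑' k : ℕ, if k < K then t ^ k / ((k.factorial : ℝ) ^ 2) else 0 := by
    rw [tsum_eq_sum (s := range K) (fun k hk => by
      rw [mem_range] at hk
      rw [if_neg hk])]
    exact sum_congr rfl fun k hk => by rw [if_pos (mem_range.1 hk)]
  have h2 : Summable fun k : ℕ => if k < K then t ^ k / ((k.factorial : ℝ) ^ 2) else 0 :=
    summable_of_ne_finset_zero (s := range K) (fun k hk => by
      rw [mem_range] at hk
      rw [if_neg hk])
  rw [h1]
  unfold gS GS
  rw [← tsum_mul_left, ← tsum_mul_left, ← Summable.tsum_sub ((summable_g t).mul_left _) (h2.mul_left _)]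
  refine Summable.tsum_le_tsum (fun k => ?_) (((summable_g t).mul_left _).sub (h2.mul_left _)) (summable_G t)
  have h3 : 0 ≤ t ^ k / ((k.factorial : ℝ) ^ 2) := by positivity
  rw [mul_div_assoc]
  split_ifs with h
  · rw [sub_self]; positivity
  · rw [mul_zero, sub_zero]
    have : (K : ℝ) ≤ k := by exact_mod_cast not_lt.1 h
    gcongr

/-- The eigenvalue condition has a solution. -/
theorem exists_root {L : ℝ} (hL : 0 < L) : ∃ t : ℝ, 0 < t ∧ 2 * L * GS t = gS t := by
  obtain ⟨K, hK⟩ := exists_nat_ge (1 / L)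
  have hKL : 1 ≤ L * K := by
    rw [div_le_iff₀ hL] at hK
    linarith
  have hK0 : 0 < (K : ℝ) := by
    rcases Nat.eq_zero_or_pos K with h | h
    · rw [h] at hKL; simp at hKL; linarith
    · exact_mod_cast h
  have hKn : 0 < K := by exact_mod_cast hK0
  set T : ℝ := 2 * K * (K.factorial : ℝ) ^ 2 + 1 with hT
  have hf := fac_pos K
  have hT1 : 1 ≤ T := by rw [hT]; nlinarith [sq_nonneg (K.factorial : ℝ), mul_pos hK0 (pow_pos hf 2)]
  have hT0 : 0 ≤ T := by linarith
  have hP : ∑ k ∈ range K, T ^ k / ((k.factorial : ℝ) ^ 2) ≤ K * T ^ (K - 1) := by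
    calc ∑ k ∈ range K, T ^ k / ((k.factorial : ℝ) ^ 2) ≤ ∑ k ∈ range K, T ^ (K - 1) := by
          refine sum_le_sum fun k hk => ?_
          have h1 := one_le_fac k
          calc T ^ k / ((k.factorial : ℝ) ^ 2) ≤ T ^ k := by
                apply div_le_self (by positivity)
                nlinarith
            _ ≤ T ^ (K - 1) := pow_le_pow_right₀ hT1 (by have := mem_range.1 hk; omega)
      _ = K * T ^ (K - 1) := by simp
  have hg2 : 2 * ∑ k ∈ range K, T ^ k / ((k.factorial : ℝ) ^ 2) < gS T := by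
    have h1 := gS_ge hT0 K
    have h2 : T ^ K = T ^ (K - 1) * T := by rw [← pow_succ]; congr 1; omega
    have h3 : 2 * (K * T ^ (K - 1)) < T ^ K / ((K.factorial : ℝ) ^ 2) := by
      rw [lt_div_iff₀ (by positivity), h2]
      have : 0 < T ^ (K - 1) := by positivity
      calc 2 * (K * T ^ (K - 1)) * (K.factorial : ℝ) ^ 2 = T ^ (K - 1) * (2 * K * (K.factorial : ℝ) ^ 2) := by ring
        _ < T ^ (K - 1) * T := by gcongr; rw [hT]; linarith
    linarith
  have hpos : 0 < 2 * L * GS T - gS T := by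
    have h1 := GS_ge hT0 K
    have h3 : 0 < gS T := by linarith [gS_ge_one hT0]
    set P := ∑ k ∈ range K, T ^ k / ((k.factorial : ℝ) ^ 2) with hPd
    have h4 : 2 * L * (K * gS T - K * P) ≤ 2 * L * GS T := by gcongr
    have h5 : 0 < L * K := by linarith
    have h6 : (L * K) * (2 * P) < (L * K) * gS T := by gcongr
    nlinarith
  have hcont : Continuous fun t => 2 * L * GS t - gS t := (continuous_GS.const_mul _).sub continuous_gS
  have hivt := intermediate_value_Icc hT0 hcont.continuousOn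
  have hmem : (0 : ℝ) ∈ Set.Icc (2 * L * GS 0 - gS 0) (2 * L * GS T - gS T) := by
    refine ⟨?_, hpos.le⟩
    rw [GS_zero, gS_zero]; norm_num
  obtain ⟨t, ht, hφ⟩ := hivt hmem
  refine ⟨t, lt_of_le_of_ne ht.1 ?_, by simpa [sub_eq_zero] using hφ⟩
  rintro rfl
  simp only [GS_zero, gS_zero] at hφ
  norm_num at hφ

end Pool.Agent.Q74.LogPot
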