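import Mathlib
import Pool.Agent.Q74.LogPot.Bessel

/-! # Square integrability of the logarithm, the Schur bound, and radial logarithmic potentials -/

set_option autoImplicit false

open MeasureTheory Filter Topology Set
open scoped Real ENNReal

namespace Pool.Agent.Q74.LogPot

theorem mul_log_sq_le {ρ s : ℝ} (hs : 0 < s) (hsρ : s ≤ ρ) : s * Real.log s ^ 2 ≤ 4 + ρ ^ 3 := by
  have hρ : 0 < ρ := hs.trans_le hsρ
  rcases le_total s 1 with h | h
  · have h1 : Real.log s = 2 * Real.log (Real.sqrt s) := by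
      rw [Real.log_sqrt hs.le]; ring
    have hr : 0 < Real.sqrt s := Real.sqrt_pos.2 hs
    have h2 : -(1 / Real.sqrt s) ≤ Real.log (Real.sqrt s) := by
      have := Real.log_le_sub_one_of_pos (show 0 < 1 / Real.sqrt s by positivity)
      rw [one_div, Real.log_inv] at this
      rw [one_div]
      linarith
    have h3 : Real.log (Real.sqrt s) ≤ 0 := Real.log_nonpos hr.le (by
      rw [show (1:ℝ) = Real.sqrt 1 by simp]; exact Real.sqrt_le_sqrt h)
    have h4 : Real.log (Real.sqrt s) ^ 2 ≤ (1 / Real.sqrt s) ^ 2 := by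
      apply sq_le_sq'
      · linarith
      · have : 0 < 1 / Real.sqrt s := by positivity
        linarith
    have h5 : (1 / Real.sqrt s) ^ 2 = 1 / s := by
      rw [div_pow, one_pow, Real.sq_sqrt hs.le]
    rw [h5] at h4
    have h6 : s * Real.log s ^ 2 ≤ 4 := by
      rw [h1, mul_pow]
      calc s * (2 ^ 2 * Real.log (Real.sqrt s) ^ 2) ≤ s * (2 ^ 2 * (1 / s)) := by gcongr
        _ = 4 := by field_simp; norm_num
    have : 0 < ρ ^ 3 := by positivity
    linarith
  · have h1 : 0 ≤ Real.log s := Real.log_nonneg h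
    have h2 : Real.log s ≤ ρ := (Real.log_le_sub_one_of_pos hs).trans (by linarith)
    calc s * Real.log s ^ 2 ≤ ρ * ρ ^ 2 := by gcongr
      _ = ρ ^ 3 := by ring
      _ ≤ _ := by linarith

theorem lintegral_log_sq_lt_top (ρ : ℝ) :
    ∫⁻ z in Metric.closedBall (0 : ℂ) ρ, ENNReal.ofReal (Real.log ‖z‖ ^ 2) < ⊤ := by
  rw [← lintegral_indicator measurableSet_closedBall, ← Complex.lintegral_comp_polarCoord_symm]
  have hle : ∀ p ∈ polarCoord.target, ENNReal.ofReal p.1 •
      (Metric.closedBall (0 : ℂ) ρ).indicator (fun z => ENNReal.ofReal (Real.log ‖z‖ ^ 2))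
        (Complex.polarCoord.symm p) ≤
      (Ioc (0 : ℝ) ρ ×ˢ Ioo (-π) π).indicator (fun _ => ENNReal.ofReal (4 + ρ ^ 3)) p := by
    intro p hp
    have hp1 : 0 < p.1 := hp.1
    by_cases h : Complex.polarCoord.symm p ∈ Metric.closedBall (0 : ℂ) ρ
    · have hn : ‖Complex.polarCoord.symm p‖ = p.1 := by
        rw [Complex.norm_polarCoord_symm, abs_of_pos hp1]
      have h2 : p.1 ≤ ρ := by rw [← hn]; simpa using h
      have hmem : p ∈ Ioc (0 : ℝ) ρ ×ˢ Ioo (-π) π := ⟨⟨hp1, h2⟩, hp.2⟩
      rw [indicator_of_mem h, indicator_of_mem hmem, hn, smul_eq_mul, ← ENNReal.ofReal_mul hp1.le]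
      exact ENNReal.ofReal_le_ofReal (mul_log_sq_le hp1 h2)
    · rw [indicator_of_notMem h, smul_zero]
      exact zero_le
  refine (setLIntegral_mono' polarCoord.open_target.measurableSet hle).trans_lt ?_
  refine (setLIntegral_le_lintegral _ _).trans_lt ?_
  rw [lintegral_indicator (measurableSet_Ioc.prod measurableSet_Ioo), setLIntegral_const]
  refine ENNReal.mul_lt_top ENNReal.ofReal_lt_top ?_
  rw [Measure.volume_eq_prod, Measure.prod_prod]
  refine ENNReal.mul_lt_top ?_ ?_ <;> simp [Real.volume_Ioc, Real.volume_Ioo]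

/-- the constant in the Schur bound -/
theorem lintegral_log_sub_sq_le {R : ℝ} {Ω : Set ℂ} (hΩ : MeasurableSet Ω) (hΩR : Ω ⊆ Metric.closedBall 0 R)
    {y : ℂ} (hy : y ∈ Metric.closedBall (0 : ℂ) R) :
    ∫⁻ x in Ω, ENNReal.ofReal (Real.log ‖x - y‖ ^ 2) ≤
      ∫⁻ z in Metric.closedBall (0 : ℂ) (2 * R), ENNReal.ofReal (Real.log ‖z‖ ^ 2) := by
  rw [← lintegral_indicator hΩ, ← lintegral_indicator measurableSet_closedBall]
  rw [← lintegral_sub_right_eq_self ((Metric.closedBall (0 : ℂ) (2 * R)).indicator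
    fun z => ENNReal.ofReal (Real.log ‖z‖ ^ 2)) y]
  refine lintegral_mono fun x => ?_
  by_cases hx : x ∈ Ω
  · have h1 : x - y ∈ Metric.closedBall (0 : ℂ) (2 * R) := by
      have h2 := hΩR hx
      rw [mem_closedBall_zero_iff] at h2 hy ⊢
      have := norm_sub_le x y
      linarith
    rw [indicator_of_mem hx, indicator_of_mem h1]
  · rw [indicator_of_notMem hx]
    exact zero_le

theorem measurable_log_sub (y : ℂ) : Measurable fun x : ℂ => Real.log ‖x - y‖ :=
  Real.measurable_log.comp (measurable_id.sub_const y).norm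

theorem lintegral_log_le {R : ℝ} {Ω : Set ℂ} (hΩ : MeasurableSet Ω) (hΩR : Ω ⊆ Metric.closedBall 0 R)
    {y : ℂ} (hy : y ∈ Metric.closedBall (0 : ℂ) R) {lam : ℝ} (hlam : 0 < lam) :
    ∫⁻ x in Ω, ‖Real.log ‖x - y‖‖ₑ ≤ ENNReal.ofReal lam * volume Ω + ENNReal.ofReal (1 / lam) *
      ∫⁻ z in Metric.closedBall (0 : ℂ) (2 * R), ENNReal.ofReal (Real.log ‖z‖ ^ 2) := by
  calc ∫⁻ x in Ω, ‖Real.log ‖x - y‖‖ₑ ≤
      ∫⁻ x in Ω, (ENNReal.ofReal lam + ENNReal.ofReal (1 / lam) * ENNReal.ofReal (Real.log ‖x - y‖ ^ 2)) := by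
        refine lintegral_mono fun x => ?_
        rw [← ENNReal.ofReal_mul (by positivity), ← ENNReal.ofReal_add hlam.le (by positivity),
          Real.enorm_eq_ofReal_abs]
        refine ENNReal.ofReal_le_ofReal ?_
        have h1 : 0 ≤ (|Real.log ‖x - y‖| - lam) ^ 2 := sq_nonneg _
        have h2 : |Real.log ‖x - y‖| ^ 2 = Real.log ‖x - y‖ ^ 2 := sq_abs _
        have h3 : 0 ≤ |Real.log ‖x - y‖| := abs_nonneg _
        rw [one_div, inv_mul_eq_div, ← sub_le_iff_le_add', le_div_iff₀ hlam]
        nlinarith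
    _ = ENNReal.ofReal lam * volume Ω + ENNReal.ofReal (1 / lam) *
        ∫⁻ x in Ω, ENNReal.ofReal (Real.log ‖x - y‖ ^ 2) := by
        rw [lintegral_add_left measurable_const, setLIntegral_const, lintegral_const_mul]
        exact ((measurable_log_sub y).pow_const 2).ennreal_ofReal
    _ ≤ _ := add_le_add le_rfl (mul_le_mul' le_rfl (lintegral_log_sub_sq_le hΩ hΩR hy))

/-- The circle average of the logarithm on the angular interval of polar coordinates. -/
theorem integral_log_circle (x : ℂ) {s : ℝ} (hs : 0 < s) :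
    ∫ θ in Ioo (-π) π, Real.log ‖x - Complex.polarCoord.symm (s, θ)‖ =
      2 * π * (Real.log s + Real.posLog (s⁻¹ * ‖x‖)) := by
  have h1 := circleAverage_log_norm_sub_const_eq_log_radius_add_posLog (a := x) (c := 0) hs.ne'
  rw [Real.circleAverage_def] at h1
  rw [zero_sub, norm_neg] at h1
  rw [← h1, smul_eq_mul, ← mul_assoc, mul_inv_cancel₀ (by positivity), one_mul]
  rw [← integral_Ioc_eq_integral_Ioo, ← intervalIntegral.integral_of_le (by linarith [Real.pi_pos])]
  have hper : Function.Periodic (fun θ : ℝ => Real.log ‖circleMap 0 s θ - x‖) (2 * π) := by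
    intro θ
    show Real.log ‖circleMap 0 s (θ + 2 * π) - x‖ = _
    rw [periodic_circleMap]
  have h2 := hper.intervalIntegral_add_eq (-π) 0
  rw [show -π + 2 * π = π by ring, zero_add] at h2
  rw [← h2]
  refine intervalIntegral.integral_congr fun θ _ => ?_
  show Real.log ‖x - Complex.polarCoord.symm (s, θ)‖ = Real.log ‖circleMap 0 s θ - x‖
  rw [norm_sub_rev, circleMap_zero, Complex.polarCoord_symm_apply, Complex.exp_mul_I]
  push_cast
  rfl

/-- The potential of a radial density on a disc. -/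
theorem radial_potential {R : ℝ} (hR : 0 < R) {u : ℝ → ℝ} (hu : Continuous u) {x : ℂ} (hx : ‖x‖ ≤ R) :
    ∫ y in Metric.ball (0 : ℂ) R, Real.log ‖x - y‖ * u ‖y‖ =
      2 * π * ∫ s in (0 : ℝ)..R, s * u s * (Real.log s + Real.posLog (s⁻¹ * ‖x‖)) := by
  set f : ℂ → ℝ := (Metric.ball (0 : ℂ) R).indicator fun y => Real.log ‖x - y‖ * u ‖y‖ with hf
  have hmeas : Measurable fun y : ℂ => Real.log ‖x - y‖ * u ‖y‖ := by
    have h1 : Measurable fun y : ℂ => Real.log ‖x - y‖ :=
      Real.measurable_log.comp (measurable_const.sub measurable_id).norm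
    exact h1.mul (hu.measurable.comp measurable_norm)
  have hfm : Measurable f := hmeas.indicator measurableSet_ball
  obtain ⟨C, hC⟩ := (isCompact_Icc (a := 0) (b := R)).exists_bound_of_continuousOn hu.continuousOn
  have hC0 : 0 ≤ C := (norm_nonneg _).trans (hC 0 ⟨le_rfl, hR.le⟩)
  have hxR : x ∈ Metric.closedBall (0 : ℂ) R := by rwa [mem_closedBall_zero_iff]
  have hfin : ∫⁻ y, ‖f y‖ₑ < ⊤ := by
    have h1 : ∀ y, ‖f y‖ₑ ≤ (Metric.ball (0 : ℂ) R).indicator
        (fun y => ENNReal.ofReal C * ‖Real.log ‖y - x‖‖ₑ) y := by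
      intro y
      by_cases hy : y ∈ Metric.ball (0 : ℂ) R
      · rw [hf, indicator_of_mem hy, indicator_of_mem hy, enorm_mul, mul_comm, norm_sub_rev]
        gcongr
        rw [Real.enorm_eq_ofReal_abs]
        refine ENNReal.ofReal_le_ofReal ?_
        rw [mem_ball_zero_iff] at hy
        exact hC _ ⟨norm_nonneg _, hy.le⟩
      · rw [hf, indicator_of_notMem hy, indicator_of_notMem hy, enorm_zero]
    refine (lintegral_mono h1).trans_lt ?_
    rw [lintegral_indicator measurableSet_ball, lintegral_const_mul _ (measurable_log_sub x).enorm]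
    refine ENNReal.mul_lt_top ENNReal.ofReal_lt_top ?_
    refine (lintegral_log_le measurableSet_ball Metric.ball_subset_closedBall hxR one_pos).trans_lt ?_
    refine ENNReal.add_lt_top.2 ⟨ENNReal.mul_lt_top ENNReal.ofReal_lt_top measure_ball_lt_top,
      ENNReal.mul_lt_top ENNReal.ofReal_lt_top (lintegral_log_sq_lt_top _)⟩
  have hsymm : Measurable fun p : ℝ × ℝ => (Complex.polarCoord.symm p : ℂ) := by
    have : (fun p : ℝ × ℝ => (Complex.polarCoord.symm p : ℂ)) =
        fun p => (p.1 : ℂ) * (Real.cos p.2 + Real.sin p.2 * Complex.I) := by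
      funext p
      exact Complex.polarCoord_symm_apply p
    rw [this]
    fun_prop
  have hint : IntegrableOn (fun p : ℝ × ℝ => p.1 • f (Complex.polarCoord.symm p))
      (Ioi (0 : ℝ) ×ˢ Ioo (-π) π) (volume.prod volume) := by
    refine ⟨((measurable_fst.smul (hfm.comp hsymm))).aestronglyMeasurable, ?_⟩
    have h1 := Complex.lintegral_comp_polarCoord_symm (fun y => ‖f y‖ₑ)
    rw [← h1] at hfin
    refine lt_of_le_of_lt (le_of_eq ?_) hfin
    refine setLIntegral_congr_fun polarCoord.open_target.measurableSet fun p hp => ?_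
    have hp1 : 0 < p.1 := hp.1
    rw [enorm_smul, Real.enorm_eq_ofReal hp1.le, smul_eq_mul]
  rw [← integral_indicator measurableSet_ball, ← Complex.integral_comp_polarCoord_symm]
  have htar : polarCoord.target = Ioi (0 : ℝ) ×ˢ Ioo (-π) π := rfl
  rw [htar, Measure.volume_eq_prod, setIntegral_prod _ hint]
  have hinner : ∀ s ∈ Ioi (0 : ℝ), ∫ θ in Ioo (-π) π, (s, θ).1 • f (Complex.polarCoord.symm (s, θ)) =
      (Iio R).indicator (fun s => 2 * π * (s * u s * (Real.log s + Real.posLog (s⁻¹ * ‖x‖)))) s := by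
    intro s hs
    have hs0 : 0 < s := hs
    have hn : ∀ θ, ‖Complex.polarCoord.symm (s, θ)‖ = s := fun θ => by
      rw [Complex.norm_polarCoord_symm, abs_of_pos hs0]
    by_cases hsR : s < R
    · rw [indicator_of_mem (show s ∈ Iio R from hsR)]
      have h1 : ∀ θ, (s, θ).1 • f (Complex.polarCoord.symm (s, θ)) =
          s * u s * Real.log ‖x - Complex.polarCoord.symm (s, θ)‖ := by
        intro θ
        have : Complex.polarCoord.symm (s, θ) ∈ Metric.ball (0 : ℂ) R := by
          rw [mem_ball_zero_iff, hn]; exact hsR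
        rw [hf, indicator_of_mem this, hn, smul_eq_mul]
        ring
      simp only [h1]
      rw [integral_const_mul, integral_log_circle x hs0]
      ring
    · rw [indicator_of_notMem (show s ∉ Iio R from hsR)]
      have h1 : ∀ θ, (s, θ).1 • f (Complex.polarCoord.symm (s, θ)) = 0 := by
        intro θ
        have : Complex.polarCoord.symm (s, θ) ∉ Metric.ball (0 : ℂ) R := by
          rw [mem_ball_zero_iff, hn]; exact hsR
        rw [hf, indicator_of_notMem this, smul_zero]
      simp only [h1, integral_zero]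
  rw [setIntegral_congr_fun measurableSet_Ioi hinner, setIntegral_indicator measurableSet_Iio,
    show Ioi (0 : ℝ) ∩ Iio R = Ioo 0 R from rfl, ← integral_Ioc_eq_integral_Ioo,
    ← intervalIntegral.integral_of_le hR.le, intervalIntegral.integral_const_mul]

/-- The radial eigenfunction. -/
theorem eigen_radial {R c : ℝ} (hR : 0 < R) (hc : 0 < c)
    (hroot : 2 * Real.log R * GS (c * R ^ 2) = gS (c * R ^ 2)) {x : ℂ} (hx0 : x ≠ 0) (hxR : ‖x‖ < R) :
    ∫ y in Metric.ball (0 : ℂ) R, Real.log (1 / ‖x - y‖) * gS (c * ‖y‖ ^ 2) =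
      -(π / (2 * c)) * gS (c * ‖x‖ ^ 2) := by
  set u : ℝ → ℝ := fun s => gS (c * s ^ 2) with hu
  set W : ℝ → ℝ := fun s => 2 * GS (c * s ^ 2) with hW
  set ρ : ℝ := ‖x‖ with hρ
  have hρ0 : 0 < ρ := norm_pos_iff.2 hx0
  have huc : Continuous u := continuous_gS.comp (by fun_prop)
  have hWd : ∀ s, HasDerivAt W (4 * c * (s * u s)) s := by
    intro s
    have h1 : HasDerivAt (fun s : ℝ => c * s ^ 2) (c * (2 * s)) s := by
      have := (hasDerivAt_pow 2 s).const_mul c
      simpa using this
    have h2 := ((hasDerivAt_GS (c * s ^ 2)).comp s h1).const_mul 2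
    refine h2.congr_deriv ?_
    simp only [hu]; ring
  have hud : ∀ s, 0 < s → HasDerivAt u (W s / s) s := by
    intro s hs
    have h1 : HasDerivAt (fun s : ℝ => c * s ^ 2) (c * (2 * s)) s := by
      have := (hasDerivAt_pow 2 s).const_mul c
      simpa using this
    have h2 := (hasDerivAt_gS (show 0 < c * s ^ 2 by positivity)).comp s h1
    refine h2.congr_deriv ?_
    simp only [hW]
    field_simp
  have hmain := radial_potential hR huc hxR.le
  have hneg : ∫ y in Metric.ball (0 : ℂ) R, Real.log (1 / ‖x - y‖) * gS (c * ‖y‖ ^ 2) =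
      -∫ y in Metric.ball (0 : ℂ) R, Real.log ‖x - y‖ * u ‖y‖ := by
    rw [← integral_neg]
    refine integral_congr_ae (Eventually.of_forall fun y => ?_)
    simp only [hu]
    rw [one_div, Real.log_inv]
    ring
  rw [hneg, hmain]
  have hA : ∀ s ∈ Ioc (0 : ℝ) ρ, s * u s * (Real.log s + Real.posLog (s⁻¹ * ρ)) = Real.log ρ * (s * u s) := by
    intro s hs
    have hs0 : 0 < s := hs.1
    have h1 : 1 ≤ s⁻¹ * ρ := by
      rw [inv_mul_eq_div, one_le_div hs0]; exact hs.2
    rw [Real.posLog_eq_log (by rw [abs_of_pos (by positivity)]; exact h1),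
      Real.log_mul (by positivity) (by positivity), Real.log_inv]
    ring
  have hB : ∀ s ∈ Ioc ρ R, s * u s * (Real.log s + Real.posLog (s⁻¹ * ρ)) = Real.log s * (s * u s) := by
    intro s hs
    have hs0 : 0 < s := hρ0.trans hs.1
    have h1 : s⁻¹ * ρ ≤ 1 := by
      rw [inv_mul_eq_div, div_le_one hs0]; exact hs.1.le
    have h2 : Real.posLog (s⁻¹ * ρ) = 0 := by
      rw [Real.posLog_eq_zero_iff, abs_of_pos (by positivity)]; exact h1
    rw [h2]; ring
  have hI1 : ∫ s in (0 : ℝ)..ρ, s * u s * (Real.log s + Real.posLog (s⁻¹ * ρ)) =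
      Real.log ρ * (W ρ / (4 * c)) := by
    rw [intervalIntegral.integral_of_le hρ0.le, setIntegral_congr_fun measurableSet_Ioc hA,
      ← intervalIntegral.integral_of_le hρ0.le, intervalIntegral.integral_const_mul]
    congr 1
    have h1 : ∀ s ∈ uIcc 0 ρ, HasDerivAt (fun s => W s / (4 * c)) (s * u s) s := by
      intro s _
      have := (hWd s).div_const (4 * c)
      refine this.congr_deriv ?_
      field_simp
    rw [intervalIntegral.integral_eq_sub_of_hasDerivAt h1 ((continuous_id.mul huc).intervalIntegrable _ _)]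
    simp only [hW]
    rw [show c * (0:ℝ) ^ 2 = 0 by ring, GS_zero]
    ring
  have hI2 : ∫ s in ρ..R, s * u s * (Real.log s + Real.posLog (s⁻¹ * ρ)) =
      (Real.log R * W R - u R) / (4 * c) - (Real.log ρ * W ρ - u ρ) / (4 * c) := by
    rw [intervalIntegral.integral_of_le hxR.le, setIntegral_congr_fun measurableSet_Ioc hB,
      ← intervalIntegral.integral_of_le hxR.le]
    have h1 : ∀ s ∈ uIcc ρ R, HasDerivAt (fun s => (Real.log s * W s - u s) / (4 * c))
        (Real.log s * (s * u s)) s := by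
      intro s hs
      rw [uIcc_of_le hxR.le] at hs
      have hs0 : 0 < s := hρ0.trans_le hs.1
      have := (((Real.hasDerivAt_log hs0.ne').mul (hWd s)).sub (hud s hs0)).div_const (4 * c)
      refine this.congr_deriv ?_
      field_simp
      ring
    rw [intervalIntegral.integral_eq_sub_of_hasDerivAt h1]
    refine ContinuousOn.intervalIntegrable ?_
    rw [uIcc_of_le hxR.le]
    refine (Real.continuousOn_log.mono fun s hs => ?_).mul (continuous_id.mul huc).continuousOn
    have hs0 : 0 < s := hρ0.trans_le hs.1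
    exact hs0.ne'
  have hint1 : IntervalIntegrable (fun s => s * u s * (Real.log s + Real.posLog (s⁻¹ * ρ))) volume 0 ρ := by
    rw [intervalIntegrable_iff_integrableOn_Ioc_of_le hρ0.le]
    refine IntegrableOn.congr_fun ?_ (fun s hs => (hA s hs).symm) measurableSet_Ioc
    exact ((continuous_const.mul (continuous_id.mul huc)).integrableOn_Icc).mono_set Ioc_subset_Icc_self
  have hint2 : IntervalIntegrable (fun s => s * u s * (Real.log s + Real.posLog (s⁻¹ * ρ))) volume ρ R := by
    rw [intervalIntegrable_iff_integrableOn_Ioc_of_le hxR.le]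
    refine IntegrableOn.congr_fun ?_ (fun s hs => (hB s hs).symm) measurableSet_Ioc
    refine (ContinuousOn.integrableOn_Icc ?_).mono_set Ioc_subset_Icc_self
    refine (Real.continuousOn_log.mono fun s hs => ?_).mul (continuous_id.mul huc).continuousOn
    have hs0 : 0 < s := hρ0.trans_le hs.1
    exact hs0.ne'
  rw [← intervalIntegral.integral_add_adjacent_intervals hint1 hint2, hI1, hI2]
  have hr : Real.log R * W R = u R := by
    simp only [hW, hu]; linarith
  rw [hr]
  simp only [hu]
  field_simp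
  ring

end Pool.Agent.Q74.LogPot
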