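import Mathlib
import Pool.Agent.Q74.LogPot.Fekete
import Pool.Agent.Q74.LogPot.Radial

/-! # The eigenvalue bound, and thin annuli -/

set_option autoImplicit false

open MeasureTheory Filter Topology Set
open scoped Real ENNReal

namespace Pool.Agent.Q74.LogPot

/-- Schur's bound for eigenvalues. -/
theorem eigen_bound {R : ℝ} {Ω : Set ℂ} (hΩ : MeasurableSet Ω) (hΩR : Ω ⊆ Metric.closedBall 0 R)
    {S : ℝ≥0∞} (hS : ∀ y ∈ Metric.closedBall (0 : ℂ) R, ∫⁻ x in Ω, ‖Real.log ‖x - y‖‖ₑ ≤ S)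
    {τ : ℝ} {u : ℂ → ℝ} (hu : MemLp u 2 (volume.restrict Ω)) (hu0 : ¬ u =ᵐ[volume.restrict Ω] 0)
    (hτ : ∀ᵐ x ∂(volume.restrict Ω), ∫ y in Ω, Real.log (1 / ‖x - y‖) * u y = τ * u x) :
    ‖τ‖ₑ ≤ S := by
  have hfinm : volume Ω < ⊤ := (measure_mono hΩR).trans_lt measure_closedBall_lt_top
  haveI : IsFiniteMeasure (volume.restrict Ω) := ⟨by rwa [Measure.restrict_apply_univ]⟩
  set v := hu.1.mk u with hv
  have hvm : StronglyMeasurable v := hu.1.stronglyMeasurable_mk
  have huv : u =ᵐ[volume.restrict Ω] v := hu.1.ae_eq_mk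
  have hvL : MemLp v 2 (volume.restrict Ω) := (memLp_congr_ae huv).1 hu
  have hv0 : ¬ v =ᵐ[volume.restrict Ω] 0 := fun h => hu0 (huv.trans h)
  have hτv : ∀ᵐ x ∂(volume.restrict Ω), ∫ y in Ω, Real.log (1 / ‖x - y‖) * v y = τ * v x := by
    filter_upwards [hτ, huv] with x hx hxv
    rw [← hxv, ← hx]
    refine integral_congr_ae ?_
    filter_upwards [huv] with y hy
    rw [hy]
  set I : ℝ≥0∞ := ∫⁻ x in Ω, ‖v x‖ₑ with hI
  have hI0 : I ≠ 0 := by
    intro h
    rw [hI, lintegral_eq_zero_iff hvm.measurable.enorm] at h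
    apply hv0
    filter_upwards [h] with x hx
    simpa using hx
  have hIt : I ≠ ⊤ := by
    have h1 : MemLp v 1 (volume.restrict Ω) := hvL.mono_exponent (by norm_num)
    have h2 := h1.2
    rw [eLpNorm_one_eq_lintegral_enorm] at h2
    exact h2.ne
  have hkm : Measurable fun p : ℂ × ℂ => ‖Real.log ‖p.1 - p.2‖‖ₑ :=
    (Real.measurable_log.comp (measurable_fst.sub measurable_snd).norm).enorm
  have key : ‖τ‖ₑ * I ≤ S * I := by
    calc ‖τ‖ₑ * I = ∫⁻ x in Ω, ‖τ‖ₑ * ‖v x‖ₑ := by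
          rw [hI, lintegral_const_mul _ hvm.measurable.enorm]
      _ = ∫⁻ x in Ω, ‖∫ y in Ω, Real.log (1 / ‖x - y‖) * v y‖ₑ := by
          refine lintegral_congr_ae ?_
          filter_upwards [hτv] with x hx
          rw [hx, enorm_mul]
      _ ≤ ∫⁻ x in Ω, ∫⁻ y in Ω, ‖Real.log ‖x - y‖‖ₑ * ‖v y‖ₑ := by
          refine lintegral_mono fun x => ?_
          refine (enorm_integral_le_lintegral_enorm _).trans (le_of_eq ?_)
          refine lintegral_congr fun y => ?_
          rw [enorm_mul, one_div, Real.log_inv, enorm_neg]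
      _ = ∫⁻ y in Ω, ∫⁻ x in Ω, ‖Real.log ‖x - y‖‖ₑ * ‖v y‖ₑ := by
          refine lintegral_lintegral_swap ?_
          exact (hkm.mul (hvm.measurable.enorm.comp measurable_snd)).aemeasurable
      _ = ∫⁻ y in Ω, (∫⁻ x in Ω, ‖Real.log ‖x - y‖‖ₑ) * ‖v y‖ₑ := by
          refine lintegral_congr fun y => ?_
          rw [lintegral_mul_const _ (measurable_log_sub y).enorm]
      _ ≤ ∫⁻ y in Ω, S * ‖v y‖ₑ := by
          refine setLIntegral_mono' hΩ fun y hy => ?_
          gcongr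
          exact hS y (hΩR hy)
      _ = S * I := by rw [lintegral_const_mul _ hvm.measurable.enorm]
  exact (ENNReal.mul_le_mul_iff_left hI0 hIt).1 key

/-- The open annulus. -/
def annulus (r R : ℝ) : Set ℂ := {z | r < ‖z‖ ∧ ‖z‖ < R}

theorem annulus_eq (r R : ℝ) : annulus r R = Metric.ball 0 R \ Metric.closedBall 0 r := by
  ext z
  simp only [annulus, mem_ofPred_eq, Set.mem_sdiff, mem_ball_zero_iff, mem_closedBall_zero_iff, not_le]
  tauto

theorem isOpen_annulus (r R : ℝ) : IsOpen (annulus r R) :=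
  (isOpen_lt continuous_const continuous_norm).inter (isOpen_lt continuous_norm continuous_const)

theorem annulus_subset (r R : ℝ) : annulus r R ⊆ Metric.closedBall 0 R := fun z hz => by
  rw [mem_closedBall_zero_iff]; exact hz.2.le

theorem isConnected_annulus {r R : ℝ} (hr : 0 < r) (hrR : r < R) : IsConnected (annulus r R) := by
  have h1 : annulus r R = Complex.exp '' {w : ℂ | Real.log r < w.re ∧ w.re < Real.log R} := by
    ext z
    constructor
    · intro hz
      have hz0 : 0 < ‖z‖ := hr.trans hz.1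
      refine ⟨Complex.log z, ⟨?_, ?_⟩, Complex.exp_log (norm_pos_iff.1 hz0)⟩
      · rw [Complex.log_re]; exact Real.log_lt_log hr hz.1
      · rw [Complex.log_re]; exact Real.log_lt_log hz0 hz.2
    · rintro ⟨w, ⟨hw1, hw2⟩, rfl⟩
      refine ⟨?_, ?_⟩
      · rw [Complex.norm_exp]; exact (Real.log_lt_iff_lt_exp hr).1 hw1
      · rw [Complex.norm_exp]; exact (Real.lt_log_iff_exp_lt (hr.trans hrR)).1 hw2
  rw [h1]
  have h2 : Convex ℝ {w : ℂ | Real.log r < w.re ∧ w.re < Real.log R} :=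
    (convex_halfSpace_re_gt _).inter (convex_halfSpace_re_lt _)
  refine (h2.isConnected ?_).image _ Complex.continuous_exp.continuousOn
  have h3 : Real.log r < Real.log R := Real.log_lt_log hr hrR
  refine ⟨(((Real.log r + Real.log R) / 2 : ℝ) : ℂ), ?_, ?_⟩
  · rw [Complex.ofReal_re]; linarith
  · rw [Complex.ofReal_re]; linarith

theorem sphere_subset_closure {r R : ℝ} (hr : 0 < r) (hrR : r < R) :
    Metric.sphere (0 : ℂ) R ⊆ closure (annulus r R) := by
  intro z hz
  have hz : ‖z‖ = R := by simpa using hz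
  have hR : 0 < R := hr.trans hrR
  have h1 : Tendsto (fun t : ℝ => (t : ℂ) * z) (𝓝[<] 1) (𝓝 (((1 : ℝ) : ℂ) * z)) := by
    refine Tendsto.mono_left ?_ nhdsWithin_le_nhds
    exact (Complex.continuous_ofReal.mul continuous_const).tendsto _
  rw [Complex.ofReal_one, one_mul] at h1
  refine mem_closure_of_tendsto h1 ?_
  have h2 : ∀ᶠ t : ℝ in 𝓝[<] 1, r / R < t :=
    nhdsWithin_le_nhds (lt_mem_nhds ((div_lt_one hR).2 hrR))
  filter_upwards [h2, self_mem_nhdsWithin] with t ht ht1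
  have ht1 : t < 1 := ht1
  have ht0 : 0 < t := lt_trans (by positivity) ht
  refine ⟨?_, ?_⟩
  · rw [norm_mul, Complex.norm_real, Real.norm_of_nonneg ht0.le, hz]
    rwa [div_lt_iff₀ hR] at ht
  · rw [norm_mul, Complex.norm_real, Real.norm_of_nonneg ht0.le, hz]
    nlinarith

theorem transfiniteDiameter_annulus {r R : ℝ} (hr : 0 < r) (hrR : r < R) :
    IsTransfiniteDiameter (closure (annulus r R)) R :=
  transfiniteDiameter_of_between (hr.trans hrR)
    (closure_minimal (annulus_subset r R) Metric.isClosed_closedBall) (sphere_subset_closure hr hrR)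

theorem volume_annulus {r R : ℝ} (hr : 0 < r) (hrR : r < R) :
    volume (annulus r R) = ENNReal.ofReal (π * (R ^ 2 - r ^ 2)) := by
  rw [annulus_eq, measure_sdiff (Metric.closedBall_subset_ball hrR) measurableSet_closedBall.nullMeasurableSet
    measure_closedBall_lt_top.ne, Complex.volume_ball, Complex.volume_closedBall]
  have hpi : (NNReal.pi : ℝ≥0∞) = ENNReal.ofReal π := by
    rw [ENNReal.ofReal, Real.toNNReal_of_nonneg Real.pi_pos.le]; rfl
  rw [hpi, ← ENNReal.ofReal_pow (hr.trans hrR).le, ← ENNReal.ofReal_pow hr.le,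
    ← ENNReal.ofReal_mul (by positivity), ← ENNReal.ofReal_mul (by positivity),
    ← ENNReal.ofReal_sub _ (by positivity)]
  congr 1
  ring

/-- Thin annuli have a small Schur constant. -/
theorem exists_thin {R : ℝ} (hR : 0 < R) {ε : ℝ} (hε : 0 < ε) :
    ∃ r : ℝ, 0 < r ∧ r < R ∧ ∀ y ∈ Metric.closedBall (0 : ℂ) R,
      ∫⁻ x in annulus r R, ‖Real.log ‖x - y‖‖ₑ ≤ ENNReal.ofReal ε := by
  set Q := ∫⁻ z in Metric.closedBall (0 : ℂ) (2 * R), ENNReal.ofReal (Real.log ‖z‖ ^ 2) with hQ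
  have hQt : Q ≠ ⊤ := (lintegral_log_sq_lt_top _).ne
  set C := Q.toReal with hC
  have hC0 : 0 ≤ C := ENNReal.toReal_nonneg
  have hQC : Q = ENNReal.ofReal C := (ENNReal.ofReal_toReal hQt).symm
  set lam : ℝ := 2 * C / ε + 1 with hlam
  have hlam0 : 0 < lam := by positivity
  have hCl : C / lam ≤ ε / 2 := by
    rw [div_le_iff₀ hlam0, hlam]
    have : ε / 2 * (2 * C / ε + 1) = C + ε / 2 := by field_simp
    rw [this]; linarith
  set η : ℝ := min (1 / 2) (ε / (4 * π * R ^ 2 * lam)) with hη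
  have hη0 : 0 < η := lt_min (by norm_num) (by positivity)
  have hη1 : η ≤ 1 / 2 := min_le_left _ _
  have hη2 : η ≤ ε / (4 * π * R ^ 2 * lam) := min_le_right _ _
  refine ⟨R * (1 - η), by nlinarith, by nlinarith, fun y hy => ?_⟩
  have hr0 : 0 < R * (1 - η) := by nlinarith
  have hrR : R * (1 - η) < R := by nlinarith
  refine (lintegral_log_le (isOpen_annulus _ _).measurableSet (annulus_subset _ _) hy hlam0).trans ?_
  rw [volume_annulus hr0 hrR, ← hQ, hQC, ← ENNReal.ofReal_mul hlam0.le, ← ENNReal.ofReal_mul (by positivity),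
    ← ENNReal.ofReal_add (by
      have : 0 ≤ R ^ 2 - (R * (1 - η)) ^ 2 := by nlinarith [mul_pos hR hR]
      positivity) (by positivity)]
  refine ENNReal.ofReal_le_ofReal ?_
  have h1 : R ^ 2 - (R * (1 - η)) ^ 2 ≤ 2 * η * R ^ 2 := by nlinarith [mul_pos hR hR, mul_pos hη0 hη0]
  have h2 : lam * (π * (R ^ 2 - (R * (1 - η)) ^ 2)) ≤ ε / 2 := by
    calc lam * (π * (R ^ 2 - (R * (1 - η)) ^ 2)) ≤ lam * (π * (2 * η * R ^ 2)) := by gcongr
      _ = η * (2 * π * R ^ 2 * lam) := by ring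
      _ ≤ ε / (4 * π * R ^ 2 * lam) * (2 * π * R ^ 2 * lam) := by gcongr
      _ = ε / 2 := by field_simp; norm_num
  have h3 : 1 / lam * C = C / lam := by ring
  rw [h3]
  linarith

/-- The eigenfunction of the disc. -/
theorem exists_eigen_ball {R : ℝ} (hR : 1 < R) : ∃ (τ : ℝ) (u : ℂ → ℝ), τ < 0 ∧
    MemLp u 2 (volume.restrict (Metric.ball (0 : ℂ) R)) ∧
    (¬ u =ᵐ[volume.restrict (Metric.ball (0 : ℂ) R)] 0) ∧
    ∀ᵐ x ∂(volume.restrict (Metric.ball (0 : ℂ) R)),
      ∫ y in Metric.ball (0 : ℂ) R, Real.log (1 / ‖x - y‖) * u y = τ * u x := by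
  have hR0 : 0 < R := by linarith
  obtain ⟨t, ht, hroot⟩ := exists_root (Real.log_pos hR)
  set c : ℝ := t / R ^ 2 with hc
  have hc0 : 0 < c := by positivity
  have hcR : c * R ^ 2 = t := by rw [hc]; field_simp
  have huc : Continuous fun y : ℂ => gS (c * ‖y‖ ^ 2) := continuous_gS.comp (by fun_prop)
  have hvol : volume.restrict (Metric.ball (0 : ℂ) R) ≠ 0 := by
    rw [Ne, Measure.restrict_eq_zero]
    exact (Metric.measure_ball_pos volume 0 hR0).ne'
  refine ⟨-(π / (2 * c)), fun y => gS (c * ‖y‖ ^ 2), by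
    have : 0 < π / (2 * c) := by positivity
    linarith, ?_, ?_, ?_⟩
  · obtain ⟨C, hC⟩ := (isCompact_closedBall (0 : ℂ) R).exists_bound_of_continuousOn huc.continuousOn
    haveI : IsFiniteMeasure (volume.restrict (Metric.ball (0 : ℂ) R)) :=
      ⟨by rw [Measure.restrict_apply_univ]; exact measure_ball_lt_top⟩
    refine MemLp.of_bound huc.aestronglyMeasurable C ?_
    filter_upwards [ae_restrict_mem measurableSet_ball] with y hy
    exact hC y (Metric.ball_subset_closedBall hy)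
  · intro h
    have h1 : ∀ᵐ y ∂(volume.restrict (Metric.ball (0 : ℂ) R)), False := by
      filter_upwards [h] with y hy
      have := gS_ge_one (show 0 ≤ c * ‖y‖ ^ 2 by positivity)
      simp only [Pi.zero_apply] at hy
      linarith
    rw [Filter.eventually_false_iff_eq_bot, ae_eq_bot] at h1
    exact hvol h1
  · have h0 : ∀ᵐ x ∂(volume.restrict (Metric.ball (0 : ℂ) R)), x ≠ 0 := by
      refine ae_restrict_of_ae ?_
      rw [ae_iff]
      simp
    filter_upwards [h0, ae_restrict_mem measurableSet_ball] with x hx0 hx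
    rw [mem_ball_zero_iff] at hx
    exact eigen_radial hR0 hc0 (by rw [hcR]; exact hroot) hx0 hx

end Pool.Agent.Q74.LogPot
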